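import Mathlib

namespace Pool.Agent.Results.MP_e10d7f_nt.Q1

open Matrix Polynomial

/-- Some `n × n` primitive matrix over `ℕ` has spectral radius (largest modulus of a complex
eigenvalue) exactly `l`. -/
def Realised (l : ℝ) (n : ℕ) : Prop :=
  ∃ A : Matrix (Fin n) (Fin n) ℕ, (∃ N ≥ 1, ∀ i j, 0 < (A ^ N) i j) ∧
    IsGreatest ((‖·‖) '' spectrum ℂ (A.map (↑) : Matrix _ _ ℂ)) l

lemma sp {n : ℕ} (A : Matrix (Fin n) (Fin n) ℂ) (z : ℂ) :
    z ∈ spectrum ℂ A ↔ (of fun i j => (if i = j then z else 0) - A i j).det = 0 := by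
  rw [spectrum.mem_iff, isUnit_iff_isUnit_det, isUnit_iff_ne_zero, not_not]
  congr! 2

lemma indep {l : ℝ} (h : l ^ 3 + 3 * l ^ 2 - 15 * l - 46 = 0) (u v w : ℤ)
    (e : u * l ^ 2 + v * l + w = 0) : u = 0 ∧ v = 0 ∧ w = 0 := by
  let f : ℚ[X] := X ^ 3 + C 3 * X ^ 2 - C 15 * X - C 46
  have fm : f.Monic := by unfold f; monicity!
  have fd : f.natDegree = 3 := by unfold f; compute_degree!
  have fi : Irreducible f := by
    refine (irreducible_iff_roots_eq_zero_of_degree_le_three (by omega) (by omega)).2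
      (Multiset.eq_zero_of_forall_notMem fun x hx => ?_)
    have hx : x ^ 3 + 3 * x ^ 2 - 15 * x - 46 = 0 := by simpa [f] using (mem_roots'.1 hx).2
    obtain ⟨y, rfl⟩ := isInteger_of_is_root_of_monic (A := ℤ) (r := x)
      (p := X ^ 3 + C 3 * X ^ 2 - C 15 * X - C 46) (by monicity!) (by simpa [map_ofNat] using hx)
    have : ((y ^ 3 + 3 * y ^ 2 - 15 * y - 46 : ℤ) : ZMod 5) = 0 := by
      rw [show y ^ 3 + 3 * y ^ 2 - 15 * y - 46 = 0 by simp at hx; exact_mod_cast hx]; rfl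
    push_cast at this
    generalize (y : ZMod 5) = t at this
    revert t; decide
  have m := minpoly.eq_of_irreducible_of_monic fi (x := l) (by simpa [f] using h) fm
  let g : ℚ[X] := C (u : ℚ) * X ^ 2 + C (v : ℚ) * X + C (w : ℚ)
  have g0 : g = 0 := eq_zero_of_dvd_of_natDegree_lt (m ▸ minpoly.dvd ℚ l (by simpa [g] using e))
    (natDegree_quadratic_le.trans_lt (by omega))
  have c (k) := congrArg (coeff · k) g0
  simp only [g, coeff_add, coeff_C_mul, coeff_X_pow, coeff_X, coeff_C, coeff_zero] at c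
  exact ⟨by simpa using c 2, by simpa using c 1, by simpa using c 0⟩

lemma cub {l : ℝ} (h : l ^ 3 + 3 * l ^ 2 - 15 * l - 46 = 0) (a b c : ℤ) (z : ℂ) (n : ‖z‖ = l)
    (e : z ^ 3 - a * z ^ 2 + b * z - c = 0) : a = -3 ∨ a = 3 ∧ b = -15 ∧ c = -46 := by
  have n2 : z.re ^ 2 + z.im ^ 2 = l ^ 2 := by rw [← n, Complex.sq_norm, Complex.normSq_apply]; ring
  have r := congrArg Complex.re e
  have i := congrArg Complex.im e
  simp [pow_succ] at r i
  by_cases y : z.im = 0
  · rw [y] at n2 r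
    rcases sq_eq_sq_iff_eq_or_eq_neg.1 (show z.re ^ 2 = l ^ 2 by linarith) with k | k <;> rw [k] at r
    · have := indep h (a + 3) (-b - 15) (c - 46) (by push_cast; linear_combination h - r); omega
    · have := indep h (a - 3) (b + 15) (c + 46) (by push_cast; linear_combination -h - r); omega
  · have b1 : (b : ℝ) = l ^ 2 + 2 * z.re * (a - 2 * z.re) :=
      mul_left_cancel₀ y (by linear_combination i + z.im * n2)
    have c1 : (c : ℝ) = l ^ 2 * (a - 2 * z.re) := by
      linear_combination -r + z.re * b1 + (a - 3 * z.re) * n2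
    obtain ⟨p, q, s⟩ := indep h (24 * (39 - b) + a * c - 501) (39 - b) (2116 - c ^ 2 - 138 * (39 - b)) (by
      push_cast
      linear_combination (-(l - 3) * (39 - b) - (l ^ 3 - 3 * l ^ 2 - 15 * l + 46)) * h - l ^ 4 * b1 +
        (a * l ^ 2 - c - l ^ 2 * (a - 2 * z.re)) * c1)
    have : (c - 46) * (c + 46) = 0 := by linear_combination -s - 138 * q
    rcases mul_eq_zero.1 this with k | k
    · rw [show c = 46 by omega] at p; omega
    · rw [show c = -46 by omega] at p; omega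

theorem result : ∃ l : ℝ, IsGreatest {x : ℝ | x ^ 3 + 3 * x ^ 2 - 15 * x - 46 = 0} l ∧
    IsLeast {n | Realised l n} 4 := by
  obtain ⟨l, ⟨l1, l2⟩, h⟩ : (0 : ℝ) ∈ (fun x : ℝ => x ^ 3 + 3 * x ^ 2 - 15 * x - 46) '' Set.Icc 3.88 4 :=
    intermediate_value_Icc (by norm_num) (by fun_prop) (by norm_num)
  simp only at h
  have D (z : ℂ) : z ∈ spectrum ℂ ((!![0, 1, 0, 0; 12, 0, 1, 0; 1, 0, 0, 1; 6, 0, 12, 0] :
      Matrix (Fin 4) (Fin 4) ℕ).map (↑) : Matrix _ _ ℂ) ↔
      (z - 3) * ((z - l) * (z ^ 2 + (3 + l) * z + (l ^ 2 + 3 * l - 15))) = 0 := by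
    have : (l : ℂ) ^ 3 + 3 * l ^ 2 - 15 * l - 46 = 0 := by exact_mod_cast h
    rw [sp]
    simp [det_succ_row_zero, Fin.sum_univ_succ, Fin.succAbove, -mul_eq_zero]
    constructor <;> intro e
    · linear_combination e - (z - 3) * this
    · linear_combination e + (z - 3) * this
  have K (z : ℂ) (e : (z - l) * (z ^ 2 + (3 + l) * z + (l ^ 2 + 3 * l - 15)) = 0) : ‖z‖ ≤ l := by
    rcases mul_eq_zero.1 e with e | e
    · rw [sub_eq_zero.1 e, Complex.norm_real, Real.norm_of_nonneg (by linarith)]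
    have r := congrArg Complex.re e
    have i := congrArg Complex.im e
    simp [pow_succ] at r i
    refine abs_le_of_sq_le_sq' ?_ (by linarith) |>.2
    rw [Complex.sq_norm, Complex.normSq_apply]
    rcases mul_eq_zero.1 (show z.im * (2 * z.re + 3 + l) = 0 by linarith) with k | k
    · rw [k] at r ⊢
      have : -l ≤ z.re := by by_contra; nlinarith
      have : z.re ≤ l := by by_contra; nlinarith
      nlinarith
    · nlinarith
  refine ⟨l, ⟨h, fun x hx => (le_abs_self x).trans ?_⟩, ⟨_, ⟨6, by norm_num, by decide⟩,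
    ⟨l, (D l).2 (by simp), by simp; linarith⟩, ?_⟩, fun m ⟨A, _, ⟨z, hz, n⟩, _⟩ => ?_⟩
  · simpa using K x (by exact_mod_cast (by linear_combination (id hx : _ = _) - h :
      (x - l) * (x ^ 2 + (3 + l) * x + (l ^ 2 + 3 * l - 15)) = 0))
  · rintro _ ⟨z, hz, rfl⟩
    rcases mul_eq_zero.1 ((D z).1 hz) with e | e
    · simp [sub_eq_zero.1 e]; linarith
    · exact K z e
  by_contra! hn
  rw [sp] at hz
  interval_cases m
  · simp at hz
  · have := cub h (A 0 0) 0 0 z n (by simp at hz ⊢; linear_combination z ^ 2 * hz); omega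
  · have := cub h (A 0 0 + A 1 1) (A 0 0 * A 1 1 - A 0 1 * A 1 0) 0 z n
      (by simp [det_fin_two] at hz ⊢; linear_combination z * hz)
    omega
  · have := cub h (A 0 0 + A 1 1 + A 2 2)
      (A 0 0 * A 1 1 + A 0 0 * A 2 2 + A 1 1 * A 2 2 - (A 0 1 * A 1 0 + A 0 2 * A 2 0 + A 1 2 * A 2 1))
      (A 0 0 * A 1 1 * A 2 2 + A 0 1 * A 1 2 * A 2 0 + A 0 2 * A 1 0 * A 2 1 -
        (A 0 0 * (A 1 2 * A 2 1) + A 1 1 * (A 0 2 * A 2 0) + A 2 2 * (A 0 1 * A 1 0))) z n
      (by simp [det_fin_three] at hz ⊢; linear_combination hz)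
    obtain k | ⟨p, q, s⟩ := this
    · omega
    have : (0 : ℤ) ≤ A 0 1 * A 1 2 * A 2 0 := by positivity
    have : (0 : ℤ) ≤ A 0 2 * A 1 0 * A 2 1 := by positivity
    have : (0 : ℤ) ≤ A 1 2 * A 2 1 := by positivity
    have : (0 : ℤ) ≤ A 0 2 * A 2 0 := by positivity
    have : (0 : ℤ) ≤ A 0 1 * A 1 0 := by positivity
    generalize A 0 0 = a, A 1 1 = b, A 2 2 = c at p q s
    have : a ≤ 3 := by omega
    have : b ≤ 3 := by omega
    have : c ≤ 3 := by omega
    interval_cases a <;> interval_cases b <;> interval_cases c <;> omega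

end Pool.Agent.Results.MP_e10d7f_nt.Q1
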